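import Pool.Agent.H95.BoolSub

set_option autoImplicit false

open Pool.Agent.H95.BoolSub

namespace Pool.Agent.Results.MP_44afb3_an.Cohen

theorem result : ∃ (H : Type) (_ : NormedAddCommGroup H) (_ : InnerProductSpace ℂ H)
    (_ : CompleteSpace H) (E : Set (ClosedSubmodule ℂ H)), IsBoolSub E ∧ IsCompleteFam E ∧
    ∀ (K : Type) [NormedAddCommGroup K] [InnerProductSpace ℂ K] [CompleteSpace K]
      (F : Set (ClosedSubmodule ℂ K)), IsBoolSub F → IsReflexiveFam F → ¬ LatticeIso E F :=
  main

end Pool.Agent.Results.MP_44afb3_an.Cohen
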